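import Pool.Agent.H236Z.Box.Red

/-! Deciding whether the boxicity is at most seven is NP-hard on graphs of treewidth at most
twenty-five. -/

open Pool.Agent.NPC Pool.Agent.H236Z.Book Pool.Agent.H236Z.Box in
theorem Pool.Agent.Results.MP_33ea09_lc.ANPHard.result :
    ∀ L : Set (List Bool), InNP L → ∃ f : List Bool → List Bool, PolyTime f ∧
      ∀ x, ∃ (n : ℕ) (G : SimpleGraph (Fin n)), f x = bits (adjMat G, (7 : ℕ)) ∧
        treewidth G ≤ 25 ∧ (x ∈ L ↔ boxicity G ≤ 7) :=
  Pool.Agent.H236Z.Box.main
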